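import Mathlib

/-! Exponential sums: geometric sums and Vinogradov's lemma. -/

set_option autoImplicit false

open Finset

namespace Pool.Agent.H807R2.Dav

/-- `e(x) = exp(2πix)` -/
noncomputable def ee (x : ℝ) : ℂ := Complex.exp (2 * Real.pi * Complex.I * x)

lemma ee_eq (x : ℝ) : ee x = Complex.exp (((2 * Real.pi * x : ℝ) : ℂ) * Complex.I) := by
  unfold ee; congr 1; push_cast; ring

lemma ee_eq' (x : ℝ) : ee x = Complex.exp (Complex.I * ((2 * Real.pi * x : ℝ) : ℂ)) := by
  unfold ee; congr 1; push_cast; ring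

lemma norm_ee (x : ℝ) : ‖ee x‖ = 1 := by
  rw [ee_eq, Complex.norm_exp_ofReal_mul_I]

lemma ee_add (x y : ℝ) : ee (x + y) = ee x * ee y := by
  unfold ee; rw [← Complex.exp_add]; congr 1; push_cast; ring

lemma ee_zero : ee 0 = 1 := by simp [ee]

lemma ee_int (n : ℤ) : ee (n : ℝ) = 1 := by
  unfold ee
  rw [show (2 * (Real.pi : ℂ) * Complex.I * ((n : ℝ) : ℂ)) = n * (2 * Real.pi * Complex.I) by
    push_cast; ring]
  exact Complex.exp_int_mul_two_pi_mul_I n

lemma ee_add_int (x : ℝ) (n : ℤ) : ee (x + n) = ee x := by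
  rw [ee_add, ee_int, mul_one]

lemma ee_pow (x : ℝ) (n : ℕ) : ee (n * x) = ee x ^ n := by
  unfold ee; rw [← Complex.exp_nat_mul]; congr 1; push_cast; ring

/-- distance from `e(x)` to `1` -/
noncomputable def dd (x : ℝ) : ℝ := ‖1 - ee x‖

lemma dd_nonneg (x : ℝ) : 0 ≤ dd x := norm_nonneg _

lemma dd_eq_sin (x : ℝ) : dd x = 2 * |Real.sin (Real.pi * x)| := by
  unfold dd
  rw [← norm_neg, neg_sub, ee_eq', Complex.norm_exp_I_mul_ofReal_sub_one, norm_mul,
    Real.norm_eq_abs, Real.norm_eq_abs, abs_two]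
  congr 3
  ring

lemma dd_neg (x : ℝ) : dd (-x) = dd x := by
  rw [dd_eq_sin, dd_eq_sin]
  congr 1
  rw [mul_neg, Real.sin_neg, abs_neg]

lemma dd_add_int (x : ℝ) (n : ℤ) : dd (x + n) = dd x := by
  unfold dd; rw [ee_add_int]

lemma dd_le (x : ℝ) : dd x ≤ 2 * Real.pi * |x| := by
  rw [dd_eq_sin]
  have h := Real.abs_sin_le_abs (x := Real.pi * x)
  rw [abs_mul, abs_of_pos Real.pi_pos] at h
  linarith

lemma dd_add_ge (x y : ℝ) : dd x - 2 * Real.pi * |y| ≤ dd (x + y) := by
  have h1 : dd x ≤ dd (x + y) + dd y := by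
    unfold dd
    rw [ee_add]
    have h2 : (1 : ℂ) - ee x = (1 - ee x * ee y) - ee x * (1 - ee y) := by ring
    rw [h2]
    refine (norm_sub_le _ _).trans ?_
    rw [norm_mul, norm_ee, one_mul]
  have h2 := dd_le y
  linarith

/-- Jordan's inequality: `dd (r/q) ≥ 4 min(r, q-r)/q`. -/
lemma dd_ge {t : ℝ} (h0 : 0 ≤ t) (h1 : t ≤ 1) : 4 * min t (1 - t) ≤ dd t := by
  rw [dd_eq_sin]
  rcases le_total t (1 / 2) with h | h
  · have h3 : 2 / Real.pi * (Real.pi * t) ≤ Real.sin (Real.pi * t) :=
      Real.mul_le_sin (by have := Real.pi_pos; positivity) (by nlinarith [Real.pi_pos])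
    have h4 : 2 / Real.pi * (Real.pi * t) = 2 * t := by
      field_simp
    rw [h4] at h3
    have h5 := le_abs_self (Real.sin (Real.pi * t))
    have h6 := min_le_left t (1 - t)
    linarith
  · have h3 : 2 / Real.pi * (Real.pi * (1 - t)) ≤ Real.sin (Real.pi * (1 - t)) :=
      Real.mul_le_sin (mul_nonneg Real.pi_pos.le (by linarith)) (by nlinarith [Real.pi_pos])
    have h4 : 2 / Real.pi * (Real.pi * (1 - t)) = 2 * (1 - t) := by
      field_simp
    have h7 : Real.sin (Real.pi * (1 - t)) = Real.sin (Real.pi * t) := by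
      rw [mul_sub, mul_one, Real.sin_pi_sub]
    rw [h4, h7] at h3
    have h5 := le_abs_self (Real.sin (Real.pi * t))
    have h6 := min_le_right t (1 - t)
    linarith

/-- the majorant of geometric sums -/
noncomputable def KK (M x : ℝ) : ℝ := 3 * M / (1 + M * dd x)

lemma KK_nonneg {M : ℝ} (hM : 0 ≤ M) (x : ℝ) : 0 ≤ KK M x := by
  unfold KK
  have := dd_nonneg x
  positivity

lemma KK_neg (M x : ℝ) : KK M (-x) = KK M x := by
  unfold KK; rw [dd_neg]

lemma KK_le {M : ℝ} (hM : 0 ≤ M) (x : ℝ) : KK M x ≤ 3 * M := by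
  unfold KK
  have := dd_nonneg x
  rw [div_le_iff₀ (by positivity)]
  have : 0 ≤ M * (M * dd x) := by positivity
  nlinarith

lemma KK_le' {M x d : ℝ} (hM : 0 ≤ M) (hd : 0 < d) (h : d ≤ dd x) : KK M x ≤ 3 / d := by
  unfold KK
  have := dd_nonneg x
  rw [div_le_div_iff₀ (by positivity) hd]
  have h1 : M * d ≤ M * dd x := mul_le_mul_of_nonneg_left h hM
  nlinarith

lemma geo_bound (a b : ℕ) (hab : a ≤ b) {M : ℝ} (hM : ((b : ℝ) - a) ≤ M) (x : ℝ) :
    ‖∑ m ∈ Ico a b, ee (m * x)‖ ≤ KK M x := by
  set S : ℂ := ∑ m ∈ Ico a b, ee (m * x) with hS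
  have hab' : (a : ℝ) ≤ b := by exact_mod_cast hab
  have hM0 : 0 ≤ M := by linarith
  have h1 : ‖S‖ ≤ M := by
    refine le_trans ?_ hM
    refine (norm_sum_le _ _).trans ?_
    simp only [norm_ee, sum_const, Nat.card_Ico, nsmul_eq_mul, mul_one]
    rw [Nat.cast_sub hab]
  have h2 : dd x * ‖S‖ ≤ 2 := by
    have h3 : (1 - ee x) * S = ee x ^ a - ee x ^ b := by
      rw [hS]
      simp only [ee_pow]
      have := geom_sum_Ico_mul (ee x) hab
      linear_combination -this
    have h4 : dd x * ‖S‖ = ‖ee x ^ a - ee x ^ b‖ := by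
      rw [← h3, norm_mul]; rfl
    rw [h4]
    refine (norm_sub_le _ _).trans ?_
    rw [norm_pow, norm_pow, norm_ee]
    norm_num
  unfold KK
  have h0 := dd_nonneg x
  rw [le_div_iff₀ (by positivity)]
  have h5 : M * (dd x * ‖S‖) ≤ M * 2 := mul_le_mul_of_nonneg_left h2 hM0
  nlinarith

lemma sum_inv_range (q : ℕ) : ∑ r ∈ range q, (1 / (r : ℝ)) ≤ 1 + Real.log q := by
  rcases Nat.eq_zero_or_pos q with h | h
  · subst h; simp
  obtain ⟨n, rfl⟩ : ∃ n, q = n + 1 := ⟨q - 1, by omega⟩
  rw [sum_range_succ']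
  simp only [Nat.cast_zero, div_zero, add_zero]
  have h1 := harmonic_le_one_add_log n
  have h2 : ((harmonic n : ℚ) : ℝ) = ∑ k ∈ range n, 1 / (((k + 1 : ℕ) : ℝ)) := by
    unfold harmonic
    push_cast
    refine sum_congr rfl fun k _ => by rw [one_div]
  rw [h2] at h1
  refine h1.trans ?_
  apply add_le_add_right
  rcases Nat.eq_zero_or_pos n with h3 | h3
  · subst h3; simp
  · apply Real.log_le_log (by exact_mod_cast h3)
    push_cast; linarith

lemma sum_inv_range' (q : ℕ) : ∑ r ∈ range q, (1 / ((q : ℝ) - r)) ≤ 1 + Real.log q := by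
  have h1 := harmonic_le_one_add_log q
  refine le_trans (le_of_eq ?_) h1
  unfold harmonic
  push_cast
  rw [← sum_range_reflect]
  refine sum_congr rfl fun k hk => ?_
  have hk' := mem_range.1 hk
  rw [one_div]
  congr 1
  have : ((q - 1 - k : ℕ) : ℝ) = (q : ℝ) - 1 - k := by
    rw [Nat.cast_sub (by omega), Nat.cast_sub (by omega)]; simp
  rw [this]; ring

/-- Vinogradov's lemma for one block. -/
lemma vino_block {q : ℕ} (hq : 1 ≤ q) {a : ℤ} (hcop : IsCoprime a (q : ℤ)) {α : ℝ}
    (hα : |α - a / q| ≤ 1 / (q : ℝ) ^ 2) {M : ℝ} (hM : 0 ≤ M) (y : ℝ) :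
    ∑ j ∈ range q, KK M (y + j * α) ≤ 39 * M + 3 * q * (1 + Real.log q) := by
  have hq0 : (0 : ℝ) < q := by exact_mod_cast hq
  set c : ℤ := ⌊(q : ℝ) * y⌋ with hc
  set R : ℕ → ℕ := fun j => ((c + j * a) % (q : ℤ)).toNat with hR
  have hqz : (q : ℤ) ≠ 0 := by omega
  have hRcast : ∀ j, ((R j : ℕ) : ℤ) = (c + j * a) % (q : ℤ) := fun j =>
    Int.toNat_of_nonneg (Int.emod_nonneg _ hqz)
  have hRlt : ∀ j, R j < q := by
    intro j
    have h1 := Int.emod_lt_of_pos (c + j * a) (by omega : (0 : ℤ) < q)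
    have h2 := hRcast j
    omega
  have hinj : Set.InjOn R (range q : Set ℕ) := by
    intro i hi j hj hij
    have hi' : i < q := by simpa using hi
    have hj' : j < q := by simpa using hj
    have h1 : (c + i * a) % (q : ℤ) = (c + j * a) % (q : ℤ) := by
      rw [← hRcast, ← hRcast, hij]
    have h2 : (q : ℤ) ∣ (c + i * a) - (c + j * a) := Int.ModEq.dvd (Int.ModEq.symm h1)
    have h3 : (q : ℤ) ∣ a * ((i : ℤ) - j) := by
      have : (c + i * a) - (c + j * a) = a * ((i : ℤ) - j) := by ring
      rwa [this] at h2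
    have h4 : (q : ℤ) ∣ (i : ℤ) - j := (hcop.symm).dvd_of_dvd_mul_left h3
    obtain ⟨k, hk⟩ := h4
    have hk0 : k = 0 := by
      by_contra hne
      rcases lt_or_gt_of_ne hne with h | h
      · have : (q : ℤ) * k ≤ -q := by nlinarith
        omega
      · have : (q : ℤ) ≤ q * k := by nlinarith
        omega
    rw [hk0, mul_zero] at hk
    omega
  set g : ℕ → ℝ := fun r => (if r ≤ 6 ∨ q ≤ r + 6 then 3 * M else 0) +
    (3 * q / 2) * (1 / (r : ℝ) + 1 / ((q : ℝ) - r)) with hg
  have hgpos : ∀ r ∈ range q, 0 ≤ g r := by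
    intro r hr
    have h1 : (r : ℝ) < q := by exact_mod_cast mem_range.1 hr
    have h2 : 0 ≤ 1 / (r : ℝ) + 1 / ((q : ℝ) - r) := by
      have : 0 < (q : ℝ) - r := by linarith
      positivity
    have h3 : 0 ≤ (if r ≤ 6 ∨ q ≤ r + 6 then 3 * M else 0) := by split_ifs <;> positivity
    have : 0 ≤ (3 * (q : ℝ) / 2) * (1 / (r : ℝ) + 1 / ((q : ℝ) - r)) := by positivity
    exact add_nonneg h3 this
  have hkey : ∀ j ∈ range q, KK M (y + j * α) ≤ g (R j) := by
    intro j hj
    have hj' : (j : ℝ) < q := by exact_mod_cast mem_range.1 hj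
    have hRl : (R j : ℝ) < q := by exact_mod_cast hRlt j
    have h2 : 0 ≤ (3 * (q : ℝ) / 2) * (1 / (R j : ℝ) + 1 / ((q : ℝ) - R j)) := by
      have : 0 < (q : ℝ) - R j := by linarith
      positivity
    by_cases hcase : R j ≤ 6 ∨ q ≤ R j + 6
    · simp only [hg, if_pos hcase]
      have := KK_le hM (y + j * α)
      linarith
    · simp only [hg, if_neg hcase, zero_add]
      push Not at hcase
      obtain ⟨hr1, hr2⟩ := hcase
      set η : ℝ := y + j * α - ((c + j * a : ℤ) : ℝ) / q with hη
      have hη2 : |η| ≤ 2 / q := by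
        have h3 : η = (y - c / q) + j * (α - a / q) := by
          rw [hη]; push_cast; field_simp; ring
        have h4 : 0 ≤ y - c / q := by
          have : (c : ℝ) ≤ q * y := Int.floor_le _
          rw [sub_nonneg, div_le_iff₀ hq0]; linarith
        have h5 : y - c / q ≤ 1 / q := by
          have : (q : ℝ) * y < c + 1 := Int.lt_floor_add_one _
          rw [sub_le_iff_le_add, ← add_div, le_div_iff₀ hq0]; linarith
        have h6 : |(j : ℝ) * (α - a / q)| ≤ 1 / q := by
          rw [abs_mul, Nat.abs_cast]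
          calc (j : ℝ) * |α - a / q| ≤ q * (1 / (q : ℝ) ^ 2) :=
                mul_le_mul hj'.le hα (abs_nonneg _) hq0.le
            _ = 1 / q := by field_simp
        rw [h3]
        refine (abs_add_le _ _).trans ?_
        rw [abs_of_nonneg h4]
        have : (2 : ℝ) / q = 1 / q + 1 / q := by ring
        linarith
      -- reduce mod 1
      have hred : y + j * α = ((R j : ℝ) / q + η) + (((c + j * a) / (q : ℤ) : ℤ) : ℝ) := by
        have h7 : ((c + j * a : ℤ) : ℝ) = (R j : ℝ) + q * (((c + j * a) / (q : ℤ) : ℤ) : ℝ) := by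
          have h8 := Int.emod_add_mul_ediv (c + j * a) (q : ℤ)
          rw [← hRcast j] at h8
          exact_mod_cast h8.symm
        rw [hη, h7]
        field_simp
        ring
      have hmin : dd ((R j : ℝ) / q) - 2 * Real.pi * |η| ≤ dd (y + j * α) := by
        rw [hred, dd_add_int]
        exact dd_add_ge _ _
      have hJ : 4 * min ((R j : ℝ) / q) (1 - (R j : ℝ) / q) ≤ dd ((R j : ℝ) / q) :=
        dd_ge (by positivity) (by rw [div_le_one hq0]; exact hRl.le)
      set m : ℝ := min (R j : ℝ) (q - R j) with hm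
      have hmm : min ((R j : ℝ) / q) (1 - (R j : ℝ) / q) = m / q := by
        rw [hm, ← min_div_div_right hq0.le]
        congr 1
        field_simp
      have hm7 : 7 ≤ m := by
        rw [hm]
        apply le_min
        · exact_mod_cast hr1
        · have : ((R j + 7 : ℕ) : ℝ) ≤ q := by exact_mod_cast hr2
          push_cast at this
          linarith
      have hpi : Real.pi < 3.15 := Real.pi_lt_d2
      have hpi0 := Real.pi_pos
      have hd : 2 * m / q ≤ dd (y + j * α) := by
        have h9 : 2 * Real.pi * |η| ≤ 12.6 / q := by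
          calc 2 * Real.pi * |η| ≤ 2 * 3.15 * (2 / q) := by
                apply mul_le_mul _ hη2 (abs_nonneg _) (by norm_num)
                linarith
            _ = 12.6 / q := by ring
        rw [hmm] at hJ
        have h10 : 4 * (m / q) - 12.6 / q = (4 * m - 12.6) / q := by ring
        have h11 : 2 * m / q ≤ (4 * m - 12.6) / q := by
          apply div_le_div_of_nonneg_right _ hq0.le
          linarith
        linarith
      have hm0 : 0 < m := by linarith
      refine (KK_le' hM (by positivity) hd).trans ?_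
      have h12 : 3 / (2 * m / q) = (3 * q / 2) * (1 / m) := by
        field_simp
      rw [h12]
      apply mul_le_mul_of_nonneg_left _ (by positivity)
      have hr0 : (0 : ℝ) < R j := by
        have : 0 < R j := by omega
        exact_mod_cast this
      have hr3 : (0 : ℝ) < (q : ℝ) - R j := by linarith
      rcases min_cases (R j : ℝ) (q - R j) with ⟨h13, _⟩ | ⟨h13, _⟩
      · rw [hm, h13]
        have : 0 < 1 / ((q : ℝ) - R j) := by positivity
        linarith
      · rw [hm, h13]
        have : 0 < 1 / (R j : ℝ) := by positivity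
        linarith
  calc ∑ j ∈ range q, KK M (y + j * α) ≤ ∑ j ∈ range q, g (R j) := sum_le_sum hkey
    _ = ∑ r ∈ (range q).image R, g r := by
        rw [sum_image]
        intro i hi j hj hij
        exact hinj hi hj hij
    _ ≤ ∑ r ∈ range q, g r := by
        apply sum_le_sum_of_subset_of_nonneg
        · intro r hr
          obtain ⟨j, _, rfl⟩ := mem_image.1 hr
          exact mem_range.2 (hRlt j)
        · intro r hr _
          exact hgpos r hr
    _ ≤ 39 * M + 3 * q * (1 + Real.log q) := by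
        simp only [hg]
        rw [sum_add_distrib, ← mul_sum, sum_add_distrib]
        have h1 : ∑ r ∈ range q, (if r ≤ 6 ∨ q ≤ r + 6 then 3 * M else 0) ≤ 39 * M := by
          rw [← sum_filter, sum_const, nsmul_eq_mul]
          have h2 : ((range q).filter (fun r => r ≤ 6 ∨ q ≤ r + 6)).card ≤ 13 := by
            calc ((range q).filter (fun r => r ≤ 6 ∨ q ≤ r + 6)).card
                ≤ (range 7 ∪ Ico (q - 6) q).card := by
                  apply card_le_card
                  intro r hr
                  simp only [mem_filter, mem_range, mem_union, mem_Ico] at hr ⊢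
                  omega
              _ ≤ (range 7).card + (Ico (q - 6) q).card := card_union_le _ _
              _ ≤ 13 := by simp; omega
          have h3 : ((((range q).filter (fun r => r ≤ 6 ∨ q ≤ r + 6)).card : ℕ) : ℝ) ≤ 13 := by
            exact_mod_cast h2
          calc _ ≤ 13 * (3 * M) := mul_le_mul_of_nonneg_right h3 (by positivity)
            _ = 39 * M := by ring
        have h4 := sum_inv_range q
        have h5 := sum_inv_range' q
        have h6 : (3 * (q : ℝ) / 2) * (∑ r ∈ range q, (1 / (r : ℝ)) +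
            ∑ r ∈ range q, (1 / ((q : ℝ) - r))) ≤ (3 * q / 2) * (2 * (1 + Real.log q)) := by
          apply mul_le_mul_of_nonneg_left _ (by positivity)
          linarith
        calc _ ≤ 39 * M + (3 * q / 2) * (2 * (1 + Real.log q)) := add_le_add h1 h6
          _ = _ := by ring

lemma vino {q : ℕ} (hq : 1 ≤ q) {a : ℤ} (hcop : IsCoprime a (q : ℤ)) {α : ℝ}
    (hα : |α - a / q| ≤ 1 / (q : ℝ) ^ 2) {M : ℝ} (hM : 0 ≤ M) (y : ℝ) (H : ℕ) :
    ∑ j ∈ range H, KK M (y + j * α) ≤
      ((H : ℝ) / q + 1) * (39 * M + 3 * q * (1 + Real.log q)) := by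
  have hq0 : (0 : ℝ) < q := by exact_mod_cast hq
  have hB : 0 ≤ 39 * M + 3 * q * (1 + Real.log q) := by
    have : 0 ≤ Real.log q := Real.log_nonneg (by exact_mod_cast hq)
    positivity
  have hblocks : ∀ k : ℕ, ∑ j ∈ range (q * k), KK M (y + j * α) ≤
      k * (39 * M + 3 * q * (1 + Real.log q)) := by
    intro k
    induction k with
    | zero => simp
    | succ k ih =>
      rw [Nat.mul_succ, sum_range_add]
      have h1 : ∑ x ∈ range q, KK M (y + ((q * k + x : ℕ) : ℝ) * α) =
          ∑ x ∈ range q, KK M ((y + q * k * α) + x * α) := by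
        refine sum_congr rfl fun x _ => ?_
        congr 1
        push_cast
        ring
      rw [h1]
      have h2 := vino_block hq hcop hα hM (y + q * k * α)
      push_cast
      nlinarith
  have h1 : H ≤ q * (H / q + 1) := by
    have := Nat.div_add_mod H q
    have h2 := Nat.mod_lt H (by omega : 0 < q)
    nlinarith
  calc ∑ j ∈ range H, KK M (y + j * α) ≤ ∑ j ∈ range (q * (H / q + 1)), KK M (y + j * α) := by
        apply sum_le_sum_of_subset_of_nonneg (range_subset_range.2 h1)
        intro j _ _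
        exact KK_nonneg hM _
    _ ≤ ((H / q + 1 : ℕ) : ℝ) * (39 * M + 3 * q * (1 + Real.log q)) := hblocks _
    _ ≤ _ := by
        apply mul_le_mul_of_nonneg_right _ hB
        push_cast
        have := @Nat.cast_div_le ℝ _ _ _ H q
        linarith

end Pool.Agent.H807R2.Dav
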