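import Mathlib

/-! Interface for the Davenport-type bound for the Moebius function. -/

namespace Pool.Agent.H807R2

/-- Siegel–Walfisz for the Moebius function in all residue classes. -/
def SWMu : Prop := ∀ A B : ℕ, ∃ N₀ : ℕ, ∀ N : ℕ, N₀ ≤ N → ∀ q a : ℕ, 1 ≤ q →
  (q : ℝ) ≤ (Real.log N) ^ B →
  |∑ n ∈ (Finset.range N).filter (fun n => n % q = a),
    ((ArithmeticFunction.moebius n : ℤ) : ℝ)| ≤ N / (Real.log N) ^ A

/-- Davenport-type bound. -/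
def Davenport : Prop := ∃ C : ℝ, 0 < C ∧ ∀ N : ℕ, 16 ≤ N → ∀ α : ℝ,
  ‖∑ n ∈ Finset.range N, ((ArithmeticFunction.moebius n : ℤ) : ℂ) *
    Complex.exp (2 * Real.pi * Complex.I * n * α)‖ ≤ C * N / (Real.log N) ^ (3 / 4 : ℝ)

end Pool.Agent.H807R2
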